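import Pool.Agent.Q98.Uni
import Mathlib.GroupTheory.Coprod.Basic

/-!
# Unimodular equations over soluble groups of derived length at least two (MP_82f72d_al)

For every `d ≥ 2` there are a finite soluble group `G` of derived length `d` and a unimodular
equation over `G` which has no solution in any group `H ≥ G` with `H⁽ᵈ⁾ = 1`.
-/

set_option autoImplicit false

namespace Pool.Agent.Results.MP_82f72d_al.NoSolution

open Pool.Agent.Q98.Uni

universe u

/-- `G` is soluble of derived length exactly `d`. -/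
def HasDerivedLength (G : Type) [Group G] (d : ℕ) : Prop :=
  derivedSeries G d = ⊥ ∧ ∀ m < d, derivedSeries G m ≠ ⊥

/-- `w ∈ G * ⟨x⟩` is unimodular: the exponent sum of `x` in `w` is `1` or `-1`. Here `⟨x⟩` is
`Multiplicative ℤ`, with `x = Multiplicative.ofAdd 1`. -/
def Unimodular {G : Type} [Group G] (w : Monoid.Coprod G (Multiplicative ℤ)) : Prop :=
  Monoid.Coprod.snd w = Multiplicative.ofAdd 1 ∨ Monoid.Coprod.snd w = Multiplicative.ofAdd (-1)

/-- The value `w(h)` of `w ∈ G * ⟨x⟩` in a group `H` which contains `G` through `i`. -/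
def eval {G : Type} [Group G] {H : Type u} [Group H] (i : G →* H) (h : H)
    (w : Monoid.Coprod G (Multiplicative ℤ)) : H :=
  Monoid.Coprod.lift i (zpowersHom H h) w

/-- For every `d ≥ 2` there are a finite group `G`, soluble of derived length exactly `d`, and a
unimodular equation `w(x) = 1` over `G` without solutions in the groups `H` which contain `G` and
satisfy `H⁽ᵈ⁾ = 1` (that is, `H` is soluble of derived length at most `d`). -/
theorem result (d : ℕ) (hd : 2 ≤ d) :
    ∃ (G : Type) (_ : Group G) (w : Monoid.Coprod G (Multiplicative ℤ)),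
      Finite G ∧ HasDerivedLength G d ∧ Unimodular w ∧
      ∀ (H : Type u) [Group H] (i : G →* H), Function.Injective i → derivedSeries H d = ⊥ →
        ∀ h : H, eval i h w ≠ 1 := by
  obtain ⟨n, rfl⟩ := Nat.exists_eq_add_of_le' hd
  obtain ⟨G, hG, g, c, hf, hgood⟩ := exists_good n
  let x : Monoid.Coprod G (Multiplicative ℤ) := Monoid.Coprod.inr (Multiplicative.ofAdd 1)
  let w : Monoid.Coprod G (Multiplicative ℤ) :=
    x * (Monoid.Coprod.inl g * x⁻¹ * (Monoid.Coprod.inl g)⁻¹) *
      (Monoid.Coprod.inl g ^ 2 * x * (Monoid.Coprod.inl g ^ 2)⁻¹) * (Monoid.Coprod.inl c)⁻¹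
  refine ⟨G, hG, w, hf, ⟨hgood.der, ?_⟩, Or.inl ?_, ?_⟩
  · intro m hm h
    have h1 : derivedSeries G (n + 1) ≤ ⊥ := by
      rw [← h]
      exact derivedSeries_antitone G (by omega)
    have h2 := h1 hgood.hc
    rw [Subgroup.mem_bot] at h2
    exact hgood.ne h2
  · simp [w, x]
  · intro H _ i hi hH h hw
    refine no_solution hgood i hi hH h ?_
    have e1 : eval i h w = h * (i g * h⁻¹ * (i g)⁻¹) * (i g ^ 2 * h * (i g ^ 2)⁻¹) * (i c)⁻¹ := by
      simp [eval, w, x]
    rw [e1] at hw
    exact mul_inv_eq_one.1 hw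

end Pool.Agent.Results.MP_82f72d_al.NoSolution
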